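import Pool.Agent.R656.OmegaStar
import Pool.Agent.Y986.GL.Card

/-!
# The number of orbits of `C_k(ω*, ω*)`

ZFC proves that the space `C_k(ω*, ω*)` of the continuous self-maps of `ω*` with the compact-open
topology has exactly `2 ^ 𝔠` orbits under its group of autohomeomorphisms; already the constant maps
lie in `2 ^ 𝔠` different orbits.
-/

set_option autoImplicit false

namespace Pool.Agent.Results.MP_7279d0_gt.NumberOfOrbits

open Set Topology Filter Cardinal Pool.Agent.R656.OS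

/-- The remainder `ω* = βω \ ω`: the nonprincipal ultrafilters on `ℕ`, as a subspace of the space
`Ultrafilter ℕ` of all ultrafilters (the Stone-Čech compactification of `ℕ`). -/
abbrev OmegaStar : Type := {u : Ultrafilter ℕ // ∀ n : ℕ, u ≠ pure n}

/-- Two points of a space `Y` are in the same orbit if a homeomorphism of `Y` onto itself takes the
first one to the second one. -/
def orbitSetoid (Y : Type) [TopologicalSpace Y] : Setoid Y where
  r a b := ∃ Φ : Y ≃ₜ Y, Φ a = b
  iseqv :=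
    { refl := fun _ => ⟨Homeomorph.refl Y, rfl⟩
      symm := by
        rintro a _ ⟨Φ, rfl⟩
        exact ⟨Φ.symm, Φ.symm_apply_apply a⟩
      trans := by
        rintro a _ _ ⟨Φ, rfl⟩ ⟨Ψ, rfl⟩
        exact ⟨Φ.trans Ψ, rfl⟩ }

/-- The set of the orbits of a space. -/
abbrev Orbits (Y : Type) [TopologicalSpace Y] : Type := Quotient (orbitSetoid Y)

/-- The orbit of a point. -/
def orbit {Y : Type} [TopologicalSpace Y] (y : Y) : Orbits Y := Quotient.mk (orbitSetoid Y) y

/-- Basic open sets of the function space. -/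
def bs (F : Finset (Set ℕ × Set ℕ)) : Set CK := {g | ∀ p ∈ F, MapsTo g (st p.1) (st p.2)}

lemma isOpen_bs (F : Finset (Set ℕ × Set ℕ)) : IsOpen (bs F) := by
  have h : bs F = ⋂ p ∈ F, {g : CK | MapsTo g (st p.1) (st p.2)} := by
    ext g
    simp [bs]
  rw [h]
  exact isOpen_biInter_finset fun p _ => ContinuousMap.isOpen_setOfPred_mapsTo
    (isClopen_st _).isClosed.isCompact (isClopen_st _).isOpen

lemma exists_bs {g : CK} {S : Set CK} (hS : S ∈ 𝓝 g) : ∃ F, g ∈ bs F ∧ bs F ⊆ S := by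
  classical
  obtain ⟨T, hT, hTK, hTS⟩ := ContinuousMap.mem_nhds_iff.1 hS
  have h1 : ∀ p : Set OmegaStar × Set OmegaStar, ∃ F, g ∈ bs F ∧
      (p ∈ T → ∀ h ∈ bs F, MapsTo h p.1 p.2) := by
    rintro ⟨K, U⟩
    by_cases hp : (K, U) ∈ T
    · obtain ⟨hK, hU, hKU⟩ := hTK K U hp
      have key : ∃ F, g ∈ bs F ∧ ∀ h ∈ bs F, MapsTo h K U := by
        refine hK.induction_on (p := fun s => ∃ F, g ∈ bs F ∧ ∀ h ∈ bs F, MapsTo h s U)
          ?_ ?_ ?_ ?_
        · exact ⟨∅, by simp [bs], fun h _ => mapsTo_empty _ _⟩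
        · rintro s t hst ⟨F, hF, hFt⟩
          exact ⟨F, hF, fun h hh => (hFt h hh).mono_left hst⟩
        · rintro s t ⟨F, hF, hFs⟩ ⟨G, hG, hGt⟩
          refine ⟨F ∪ G, ?_, ?_⟩
          · intro p hp
            rcases Finset.mem_union.1 hp with h | h
            · exact hF p h
            · exact hG p h
          · intro h hh
            exact (hFs h fun p hp => hh p (Finset.mem_union_left _ hp)).union
              (hGt h fun p hp => hh p (Finset.mem_union_right _ hp))
        · intro x hx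
          obtain ⟨B, hB, hBU⟩ := exists_st hU (hKU hx)
          have hx' : x ∈ g ⁻¹' (st B) := hB
          obtain ⟨A, hA, hAB⟩ := exists_st ((isClopen_st B).isOpen.preimage g.continuous) hx'
          refine ⟨st A, mem_nhdsWithin_of_mem_nhds ((isClopen_st A).isOpen.mem_nhds hA),
            {(A, B)}, ?_, ?_⟩
          · intro p hp
            rw [Finset.mem_singleton.1 hp]
            exact hAB
          · intro h hh
            exact (hh (A, B) (Finset.mem_singleton_self _)).mono_right hBU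
      obtain ⟨F, hF1, hF2⟩ := key
      exact ⟨F, hF1, fun _ => hF2⟩
    · exact ⟨∅, by simp [bs], fun h => absurd h hp⟩
  choose F hF1 hF2 using h1
  refine ⟨hT.toFinset.biUnion F, ?_, ?_⟩
  · intro p hp
    obtain ⟨q, -, hq⟩ := Finset.mem_biUnion.1 hp
    exact hF1 q p hq
  · intro h hh
    refine hTS fun K U hKU => hF2 (K, U) hKU h fun p hp => ?_
    exact hh p (Finset.mem_biUnion.2 ⟨(K, U), hT.mem_toFinset.2 hKU, hp⟩)

/-- The ultrafilters that are the types of the point `z`. -/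
def Ty (z : CK) : Set (Ultrafilter ℕ) :=
  {q | ∃ (g : ℕ → CK) (O : ℕ → Set CK), (∀ n, IsOpen (O n) ∧ g n ∈ O n) ∧
    (∀ E : Set ℕ, E ∈ q → z ∈ closure (g '' E)) ∧
    ∀ E : Set ℕ, E ∉ q → z ∉ closure (⋃ n ∈ E, O n)}

lemma ty_map (Φ : CK ≃ₜ CK) {z : CK} {q : Ultrafilter ℕ} (h : q ∈ Ty z) : q ∈ Ty (Φ z) := by
  obtain ⟨g, O, hO, h1, h2⟩ := h
  refine ⟨fun n => Φ (g n), fun n => Φ '' (O n),
    fun n => ⟨Φ.isOpenMap _ (hO n).1, mem_image_of_mem Φ (hO n).2⟩, fun E hE => ?_,
    fun E hE hz => ?_⟩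
  · have h3 : (fun n => Φ (g n)) '' E = Φ '' (g '' E) := by rw [image_image]
    rw [h3, ← Φ.image_closure]
    exact mem_image_of_mem Φ (h1 E hE)
  · rw [← image_iUnion₂, ← Φ.image_closure] at hz
    obtain ⟨w, hw, hwz⟩ := hz
    rw [Φ.injective hwz] at hw
    exact h2 E hE hw

lemma mk_ty (z : CK) : #(Ty z) ≤ 𝔠 := by
  have h1 : ∀ q : Ty z, ∃ F : ℕ → Finset (Set ℕ × Set ℕ),
      ∀ E : Set ℕ, E ∈ q.1 ↔ z ∈ closure (⋃ n ∈ E, bs (F n)) := by
    rintro ⟨q, g, O, hO, h1, h2⟩
    choose F hF1 hF2 using fun n => exists_bs ((hO n).1.mem_nhds (hO n).2)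
    refine ⟨F, fun E => ⟨fun hE => ?_, fun hE => ?_⟩⟩
    · refine closure_mono ?_ (h1 E hE)
      rintro _ ⟨n, hn, rfl⟩
      exact mem_biUnion hn (hF1 n)
    · by_contra hE'
      exact h2 E hE' (closure_mono (biUnion_mono subset_rfl fun n _ => hF2 n) hE)
  choose F hF using h1
  have hinj : Function.Injective F := by
    intro q r hqr
    refine Subtype.ext (Ultrafilter.ext fun E => ?_)
    rw [hF q E, hF r E, hqr]
  refine (Cardinal.mk_le_of_injective hinj).trans ?_
  have h2 : #(Finset (Set ℕ × Set ℕ)) = 𝔠 := by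
    rw [Cardinal.mk_finset_of_infinite]
    simp
  rw [← Cardinal.power_def, h2, Cardinal.mk_nat, Cardinal.continuum_power_aleph0]

/-- For each ultrafilter `q` there is a point `x` such that `q` is a type of the constant map with
value `x`. -/
lemma exists_point (q : Ultrafilter ℕ) :
    ∃ x : OmegaStar, q ∈ Ty (ContinuousMap.const OmegaStar x) := by
  have h0 : ∀ n : ℕ, {m : ℕ | m.unpair.1 = n}.Infinite := by
    intro n
    refine Set.infinite_of_injective_forall_mem (f := fun k => Nat.pair n k) ?_ ?_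
    · intro a b hab
      exact (Nat.pair_eq_pair.1 hab).2
    · intro k
      simp
  choose d hd using fun n => nonempty_st (h0 n)
  obtain ⟨x, -, hx⟩ := (isCompact_univ (X := OmegaStar)).ultrafilter_le_nhds (q.map d)
    (by simp)
  have hxm : ∀ B : Set ℕ, B ∈ x.1 ↔ {n | B ∈ (d n).1} ∈ q := by
    have h1 : ∀ B : Set ℕ, B ∈ x.1 → {n | B ∈ (d n).1} ∈ q := fun B hB =>
      hx ((isClopen_st B).isOpen.mem_nhds hB)
    intro B
    refine ⟨h1 B, fun hB => ?_⟩
    by_contra hB'
    have h2 := h1 Bᶜ (Ultrafilter.compl_mem_iff_notMem.2 hB')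
    obtain ⟨n, hn1, hn2⟩ := q.nonempty_of_mem (inter_mem hB h2)
    have hn1' : B ∈ (d n).1 := hn1
    exact Ultrafilter.compl_mem_iff_notMem.1 hn2 hn1'
  refine ⟨x, fun n => ContinuousMap.const OmegaStar (d n),
    fun n => {g : CK | MapsTo g univ (st {m : ℕ | m.unpair.1 = n})}, fun n => ⟨?_, ?_⟩, ?_, ?_⟩
  · exact ContinuousMap.isOpen_setOfPred_mapsTo isCompact_univ (isClopen_st _).isOpen
  · exact fun y _ => hd n
  · intro E hE
    have h2 : x ∈ closure (d '' E) := by
      rw [mem_closure_iff]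
      intro U hU hxU
      obtain ⟨B, hB, hBU⟩ := exists_st hU hxU
      obtain ⟨n, hn1, hn2⟩ := q.nonempty_of_mem (inter_mem hE ((hxm B).1 hB))
      exact ⟨d n, hBU hn2, n, hn1, rfl⟩
    have h3 : Continuous (fun y : OmegaStar => ContinuousMap.const OmegaStar y) :=
      ContinuousMap.continuous_const'
    have h4 := image_closure_subset_closure_image h3 (mem_image_of_mem _ h2)
    rwa [image_image] at h4
  · intro E hE hx'
    have hB : (⋃ n ∈ E, {m : ℕ | m.unpair.1 = n})ᶜ ∈ x.1 := by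
      rw [hxm]
      refine mem_of_superset (Ultrafilter.compl_mem_iff_notMem.2 hE) fun n hn => ?_
      refine mem_of_superset (hd n) ?_
      intro m hm hm'
      obtain ⟨k, hk, hmk⟩ := mem_iUnion₂.1 hm'
      have h5 : k = n := hmk.symm.trans hm
      exact hn (h5 ▸ hk)
    rw [mem_closure_iff] at hx'
    obtain ⟨g, hg1, hg2⟩ := hx' {g : CK | MapsTo g univ (st (⋃ n ∈ E, {m : ℕ | m.unpair.1 = n})ᶜ)}
      (ContinuousMap.isOpen_setOfPred_mapsTo isCompact_univ (isClopen_st _).isOpen)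
      (fun y _ => hB)
    obtain ⟨n, hn, hgn⟩ := mem_iUnion₂.1 hg2
    have y : OmegaStar := Classical.arbitrary _
    obtain ⟨m, hm1, hm2⟩ := (g y).1.nonempty_of_mem (inter_mem (hg1 (mem_univ y))
      (hgn (mem_univ y)))
    exact hm1 (mem_biUnion hn hm2)

lemma mk_ck_le : #CK ≤ 2 ^ 𝔠 := by
  have hinj : Function.Injective fun z : CK => {F | z ∈ bs F} := by
    intro z w hzw
    by_contra hne
    obtain ⟨U, V, hU, hV, hzU, hwV, hUV⟩ := t2_separation hne
    obtain ⟨F, hF1, hF2⟩ := exists_bs (hU.mem_nhds hzU)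
    have h1 : F ∈ (fun z : CK => {F | z ∈ bs F}) w := by
      rw [← hzw]
      exact hF1
    exact disjoint_left.1 hUV (hF2 h1) hwV
  refine (Cardinal.mk_le_of_injective hinj).trans ?_
  have h2 : #(Finset (Set ℕ × Set ℕ)) = 𝔠 := by
    rw [Cardinal.mk_finset_of_infinite]
    simp
  rw [Cardinal.mk_set, h2]

/-- **Main theorem.**  The number of orbits of `C_k(ω*, ω*)` is `2 ^ 𝔠`, and this is also the number
of the orbits of `C_k(ω*, ω*)` that contain a constant map. -/
theorem result :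
    #(Orbits C(OmegaStar, OmegaStar)) = 2 ^ 𝔠 ∧
    #(range fun x : OmegaStar => orbit (ContinuousMap.const OmegaStar x)) = 2 ^ 𝔠 := by
  have hup : #(Orbits C(OmegaStar, OmegaStar)) ≤ 2 ^ 𝔠 :=
    (Cardinal.mk_quotient_le).trans mk_ck_le
  have hsub : #(range fun x : OmegaStar => orbit (ContinuousMap.const OmegaStar x)) ≤
      #(Orbits C(OmegaStar, OmegaStar)) := Cardinal.mk_subtype_le _
  have hlow : 2 ^ 𝔠 ≤
      #(range fun x : OmegaStar => orbit (ContinuousMap.const OmegaStar x)) := by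
    choose x hx using exists_point
    let c : Ultrafilter ℕ → (range fun x : OmegaStar => orbit (ContinuousMap.const OmegaStar x)) :=
      fun q => ⟨_, x q, rfl⟩
    have hfib : ∀ b, #(c ⁻¹' {b}) ≤ 𝔠 := by
      rintro ⟨_, y, rfl⟩
      refine le_trans (Cardinal.mk_le_mk_of_subset ?_) (mk_ty (ContinuousMap.const OmegaStar y))
      intro q hq
      have h1 : orbit (ContinuousMap.const OmegaStar (x q)) =
          orbit (ContinuousMap.const OmegaStar y) := congrArg Subtype.val hq
      obtain ⟨Φ, hΦ⟩ := Quotient.exact h1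
      rw [← hΦ]
      exact ty_map Φ (hx q)
    have h2 := Cardinal.mk_le_mk_mul_of_mk_preimage_le c hfib
    have h3 : (2 : Cardinal.{0}) ^ 𝔠 ≤ #(Ultrafilter ℕ) := by
      have := Pool.Agent.Y986.GL.card_ult
      rwa [Cardinal.two_power_aleph0] at this
    by_contra hlt
    rw [not_le] at hlt
    have h4 : ℵ₀ ≤ (2 : Cardinal.{0}) ^ 𝔠 :=
      Cardinal.aleph0_le_continuum.trans (Cardinal.cantor 𝔠).le
    exact absurd ((h3.trans h2).trans_lt (Cardinal.mul_lt_of_lt h4 hlt (Cardinal.cantor 𝔠)))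
      (lt_irrefl _)
  exact ⟨le_antisymm hup (hlow.trans hsub), le_antisymm (hsub.trans hup) hlow⟩

end Pool.Agent.Results.MP_7279d0_gt.NumberOfOrbits
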